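import Pool.Agent.K3h99.WF.Stm

/-!
# At most one relation of a minimal closed set cannot be realised in a given large degree
-/

set_option autoImplicit false

namespace Pool.Agent.K3h85.WF

open Pool.Agent.R920.WC Pool.Agent.K3h99.WF

variable {ι : Type*} [DecidableEq ι]

/-- every combination can be reduced modulo the relations, keeping a property which is preserved
by the moves -/
theorem exists_reducedP {a ℓ : ι → ℕ} {C : Finset ι} (ha : ∀ i ∈ C, 0 < a i) {M : ι → ι → ℕ}
    (hM : ∀ i ∈ C, ∑ k ∈ C, M i k * a k = ℓ i * a i)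
    (hmin : ∀ U ⊆ C, U.Nonempty → U ≠ C → ∃ i ∈ U, ∃ k ∈ C, k ∉ U ∧ M i k ≠ 0)
    {i₀ : ι} (hi₀ : i₀ ∈ C) (P : (ι → ℕ) → Prop)
    (hP : ∀ m i, i ∈ C → i ≠ i₀ → ℓ i ≤ m i → P m →
      P (fun x => (if x = i then m x - ℓ i else m x) + M i x))
    (m₀ : ι → ℕ) (h0 : P m₀) :
    ∃ m : ι → ℕ, ∑ k ∈ C, m k * a k = ∑ k ∈ C, m₀ k * a k ∧ P m ∧
      ∀ i ∈ C, i ≠ i₀ → m i < ℓ i := by
  classical
  obtain ⟨W, hW⟩ := exists_weights (a := a) (ℓ := ℓ) hmin hi₀
  set s := ∑ k ∈ C, m₀ k * a k with hs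
  -- bounded potential
  have hbd : ∀ m : ι → ℕ, ∑ k ∈ C, m k * a k = s → ∑ k ∈ C, m k * W k ≤ ∑ k ∈ C, s * W k := by
    intro m hm
    refine Finset.sum_le_sum fun k hk => Nat.mul_le_mul_right _ ?_
    calc m k ≤ m k * a k := Nat.le_mul_of_pos_right _ (ha k hk)
      _ ≤ ∑ k ∈ C, m k * a k := Finset.single_le_sum (f := fun k => m k * a k)
          (fun _ _ => Nat.zero_le _) hk
      _ = s := hm
  have hfin : {n | ∃ m : ι → ℕ, ∑ k ∈ C, m k * a k = s ∧ P m ∧
      ∑ k ∈ C, m k * W k = n}.Finite := by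
    refine Set.Finite.subset (Set.finite_le_nat (∑ k ∈ C, s * W k)) ?_
    rintro n ⟨m, hm, -, rfl⟩
    exact hbd m hm
  obtain ⟨n, ⟨m, hm, hPm, hmn⟩, hn⟩ := hfin.exists_maximal ⟨_, m₀, hs.symm, h0, rfl⟩
  refine ⟨m, hm, hPm, fun i hi hne => ?_⟩
  by_contra hlt
  push Not at hlt
  obtain ⟨k, hk, hMk, hki, hWk⟩ := hW i hi hne
  -- the new representation
  set m' : ι → ℕ := fun x => (if x = i then m x - ℓ i else m x) + M i x with hm'
  have e1 : ∀ g : ι → ℕ, ∑ x ∈ C, (if x = i then m x - ℓ i else m x) * g x + ℓ i * g i =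
      ∑ x ∈ C, m x * g x := by
    intro g
    rw [← Finset.add_sum_erase _ _ hi,
      ← Finset.add_sum_erase (a := i) (f := fun x => m x * g x) _ hi]
    have h1 : ∑ x ∈ C.erase i, (if x = i then m x - ℓ i else m x) * g x =
        ∑ x ∈ C.erase i, m x * g x := by
      refine Finset.sum_congr rfl fun x hx => ?_
      rw [if_neg (Finset.ne_of_mem_erase hx)]
    rw [h1, if_pos rfl]
    have h2 : (m i - ℓ i) * g i + ℓ i * g i = m i * g i := by
      rw [← add_mul, Nat.sub_add_cancel hlt]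
    omega
  have e2 : ∀ g : ι → ℕ, ∑ x ∈ C, m' x * g x + ℓ i * g i =
      ∑ x ∈ C, m x * g x + ∑ x ∈ C, M i x * g x := by
    intro g
    rw [← e1 g]
    simp only [hm', add_mul, Finset.sum_add_distrib]
    ring
  have h3 : ∑ x ∈ C, m' x * a x = s := by
    have := e2 a
    rw [hM i hi, hm] at this
    omega
  have h4 : ∑ x ∈ C, m x * W x < ∑ x ∈ C, m' x * W x := by
    have := e2 W
    have h5 : M i k * W k ≤ ∑ x ∈ C, M i x * W x := Finset.single_le_sum
      (f := fun x => M i x * W x) (fun _ _ => Nat.zero_le _) hk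
    have h6 : W k ≤ M i k * W k := Nat.le_mul_of_pos_left _ (Nat.pos_of_ne_zero hMk)
    omega
  have h7 := hn ⟨m', h3, hP m i hi hne hlt hPm, rfl⟩ (by rw [← hmn]; exact h4.le)
  omega

/-- the assumptions on the minimal closed set -/
structure Ctx (a c : ι → ℕ) (C : Finset ι) : Prop where
  ha : ∀ i ∈ C, 1 < a i
  hcop : ∀ i ∈ C, ∀ k ∈ C, i ≠ k → Nat.Coprime (a i) (a k)
  hcard : 3 ≤ C.card
  hC : Minimal' a c C
  hH : ∀ i ∈ C, ∀ x : ℕ, 0 < x → x < c i → ∀ m : ι → ℕ, ∑ k ∈ C.erase i, m k * a k ≠ x * a i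

namespace Ctx

variable {a c : ι → ℕ} {C : Finset ι} (X : Ctx a c C)

include X

theorem pos {i : ι} (hi : i ∈ C) : 0 < a i := by
  have := X.ha i hi
  omega

theorem rel_self {i : ι} (hi : i ∈ C) {m : ι → ℕ} (hm : Pool.Agent.R920.WC.Rel a c C i m) :
    m i = 0 := by
  by_contra h0
  obtain ⟨h1, k, hk, hki, hmk⟩ := hm
  rw [← Finset.add_sum_erase _ _ hi] at h1
  have h2 : 0 < ∑ x ∈ C.erase i, m x * a x := by
    have h3 : m k * a k ≤ ∑ x ∈ C.erase i, m x * a x := Finset.single_le_sum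
      (f := fun x => m x * a x) (fun _ _ => Nat.zero_le _) (Finset.mem_erase.2 ⟨hki, hk⟩)
    have h4 : 0 < m k * a k := Nat.mul_pos (Nat.pos_of_ne_zero hmk) (X.pos hk)
    omega
  have h3 : m i < c i := by
    by_contra hcon
    push Not at hcon
    have := Nat.mul_le_mul_right (a i) hcon
    omega
  refine X.hH i hi (c i - m i) (by omega) (by omega) m ?_
  rw [Nat.sub_mul]
  omega

theorem two_le {i : ι} (hi : i ∈ C) : 2 ≤ c i := by
  obtain ⟨m, hm⟩ := X.hC.1.2 i hi
  have h0 := X.rel_self hi hm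
  obtain ⟨h1, k, hk, hki, hmk⟩ := hm
  rw [← Finset.add_sum_erase _ _ hi, h0, zero_mul, zero_add] at h1
  have h3 : m k * a k ≤ ∑ x ∈ C.erase i, m x * a x := Finset.single_le_sum
      (f := fun x => m x * a x) (fun _ _ => Nat.zero_le _) (Finset.mem_erase.2 ⟨hki, hk⟩)
  have h4 : 0 < m k * a k := Nat.mul_pos (Nat.pos_of_ne_zero hmk) (X.pos hk)
  by_contra hcon
  have h5 : c i = 0 ∨ c i = 1 := by omega
  rcases h5 with h5 | h5
  · rw [h5, zero_mul] at h1
    omega
  · rw [h5, one_mul] at h1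
    exact X.hC.irredundant X.ha X.hcop hi m h1

/-- A combination of two other weights. -/
theorem two_ne {m p q : ι} (hm : m ∈ C) (hp : p ∈ C) (hq : q ∈ C) (hpm : p ≠ m) (hqm : q ≠ m)
    {x y t : ℕ} (hx0 : 0 < x) (hx : x < c m) : x * a m ≠ y * a p + t * a q := by
  intro h
  refine X.hH m hm x hx0 hx (fun k => (if k = p then y else 0) + (if k = q then t else 0)) ?_
  simp only [add_mul, Finset.sum_add_distrib, ite_mul, zero_mul, Finset.sum_ite_eq']
  rw [if_pos (Finset.mem_erase.2 ⟨hpm, hp⟩), if_pos (Finset.mem_erase.2 ⟨hqm, hq⟩)]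
  exact h.symm

theorem F1 {l : ι} (hl : l ∈ C) : 1 + ∑ m ∈ C.erase l, (c m - 1) ≤ a l := by
  classical
  have h1 : ((C.erase l).sigma fun m => Finset.Ico 1 (c m)).card ≤
      ((Finset.range (a l)).erase 0).card := by
    refine Finset.card_le_card_of_injOn (fun z => z.2 * a z.1 % a l) ?_ ?_
    · rintro ⟨m, x⟩ hz
      have hz' := Finset.mem_sigma.1 (Finset.mem_coe.1 hz)
      obtain ⟨hm, hx⟩ := hz'
      simp only [Finset.mem_Ico] at hx
      rw [Finset.mem_coe, Finset.mem_erase, Finset.mem_range]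
      refine ⟨fun h => ?_, Nat.mod_lt _ (X.pos hl)⟩
      obtain ⟨t, ht⟩ := Nat.dvd_of_mod_eq_zero h
      have hmC := Finset.mem_of_mem_erase hm
      have hml := Finset.ne_of_mem_erase hm
      exact X.two_ne hmC hl hl hml.symm hml.symm (y := t) (t := 0) (by omega) hx.2
        (by simp only at ht; rw [ht]; ring)
    · have key : ∀ m ∈ C.erase l, ∀ m' ∈ C.erase l, ∀ x x', 1 ≤ x → x < c m → 1 ≤ x' → x' < c m' →
          x * a m % a l = x' * a m' % a l → x' * a m' ≤ x * a m → m = m' ∧ x = x' := by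
        intro m hm m' hm' x x' hx1 hx hx1' hx' hmod hle
        have hmC := Finset.mem_of_mem_erase hm
        have hml := Finset.ne_of_mem_erase hm
        have hmC' := Finset.mem_of_mem_erase hm'
        obtain ⟨t, ht⟩ : a l ∣ x * a m - x' * a m' := (Nat.modEq_iff_dvd' hle).1 hmod.symm
        have ht' : x * a m = x' * a m' + t * a l := by
          rw [mul_comm t]
          omega
        by_cases hmm : m = m'
        · subst hmm
          refine ⟨rfl, ?_⟩
          by_contra hne
          have h2 : x' < x := by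
            have := Nat.le_of_mul_le_mul_right hle (X.pos hmC)
            omega
          refine X.two_ne hmC hl hl hml.symm hml.symm (x := x - x') (y := t) (t := 0) (by omega)
            (by omega) ?_
          rw [Nat.sub_mul]
          omega
        · exact absurd ht' (X.two_ne hmC hmC' hl (Ne.symm hmm) hml.symm (by omega) hx)
      rintro ⟨m, x⟩ hz ⟨m', x'⟩ hz' h
      have hz1 := Finset.mem_sigma.1 (Finset.mem_coe.1 hz)
      have hz2 := Finset.mem_sigma.1 (Finset.mem_coe.1 hz')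
      obtain ⟨hm, hx⟩ := hz1
      obtain ⟨hm', hx'⟩ := hz2
      simp only [Finset.mem_Ico] at hx hx'
      simp only at hm hm' h
      rcases le_total (x' * a m') (x * a m) with h3 | h3
      · obtain ⟨rfl, rfl⟩ := key m hm m' hm' x x' hx.1 hx.2 hx'.1 hx'.2 h h3
        rfl
      · obtain ⟨rfl, rfl⟩ := key m' hm' m hm x' x hx'.1 hx'.2 hx.1 hx.2 h.symm h3
        rfl
  rw [Finset.card_sigma, Finset.card_erase_of_mem (by simpa using X.pos hl),
    Finset.card_range] at h1
  simp only [Nat.card_Ico] at h1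
  have := X.pos hl
  omega

theorem c_lt {i j : ι} (hi : i ∈ C) (hj : j ∈ C) (hij : j ≠ i) : c j < a i := by
  obtain ⟨t, ht, hti, htj⟩ : ∃ t ∈ C, t ≠ i ∧ t ≠ j := by
    by_contra hcon
    push Not at hcon
    have h1 : C ⊆ {i, j} := by
      intro x hx
      rw [Finset.mem_insert, Finset.mem_singleton]
      by_cases h2 : x = i
      · exact Or.inl h2
      · exact Or.inr (hcon x hx h2)
    have h2 := Finset.card_le_card h1
    have h3 := Finset.card_le_two (a := i) (b := j)
    have := X.hcard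
    omega
  have h1 := X.F1 hi
  have h2 : ∑ m ∈ ({j, t} : Finset ι), (c m - 1) ≤ ∑ m ∈ C.erase i, (c m - 1) := by
    refine Finset.sum_le_sum_of_subset ?_
    intro x hx
    rw [Finset.mem_insert, Finset.mem_singleton] at hx
    rw [Finset.mem_erase]
    rcases hx with rfl | rfl
    · exact ⟨hij, hj⟩
    · exact ⟨hti, ht⟩
  rw [Finset.sum_pair (Ne.symm htj)] at h2
  have h3 := X.two_le hj
  have h4 := X.two_le ht
  omega

/-- the duality -/
theorem dual {E : ℤ} (hE : ∀ m : ι → ℕ, ((∑ k ∈ C, m k * a k : ℕ) : ℤ) ≠ E) {s : ι} (hs : s ∈ C) :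
    ∃ n : ι → ℕ, ((∑ k ∈ C, n k * a k : ℕ) : ℤ) =
      ∑ k ∈ C, ((c k : ℤ) - 1) * a k - E - c s * a s := by
  classical
  obtain ⟨i₁, hi₁, hne⟩ : ∃ t ∈ C, t ≠ s := by
    by_contra hcon
    push Not at hcon
    have h1 : C ⊆ {s} := fun x hx => Finset.mem_singleton.2 (hcon x hx)
    have h2 := Finset.card_le_card h1
    rw [Finset.card_singleton] at h2
    have := X.hcard
    omega
  choose! M hM using X.hC.1.2
  obtain ⟨t, ht⟩ := exists_cong (X.pos hs) (X.hcop i₁ hi₁ s hs hne) E
  obtain ⟨m, hm, hlt⟩ := exists_reduced (fun i hi => X.pos hi) (fun i hi => (hM i hi).1)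
    (X.hC.not_closed hM) hs (fun k => if k = i₁ then t else 0)
  have h1 : ∑ k ∈ C, (if k = i₁ then t else 0) * a k = t * a i₁ := by
    simp [hi₁]
  rw [h1, ← Finset.add_sum_erase _ _ hs] at hm
  obtain ⟨q, hq⟩ : (a s : ℤ) ∣ E - ((∑ k ∈ C.erase s, m k * a k : ℕ) : ℤ) := by
    have h5 : E - ((∑ k ∈ C.erase s, m k * a k : ℕ) : ℤ) =
        (E - t * a i₁) + (m s : ℤ) * a s := by
      have : ((m s * a s + ∑ k ∈ C.erase s, m k * a k : ℕ) : ℤ) = (t * a i₁ : ℕ) := by rw [hm]
      push_cast at this ⊢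
      linarith
    rw [h5]
    exact dvd_add ht (Dvd.intro_left _ rfl)
  have hq0 : q < 0 := by
    by_contra hcon
    push Not at hcon
    obtain ⟨q', rfl⟩ := Int.eq_ofNat_of_zero_le hcon
    refine hE (fun k => if k = s then q' else m k) ?_
    rw [← Finset.add_sum_erase _ _ hs, if_pos rfl]
    have h8 : ∑ k ∈ C.erase s, (if k = s then q' else m k) * a k =
        ∑ k ∈ C.erase s, m k * a k := by
      refine Finset.sum_congr rfl fun x hx => ?_
      rw [if_neg (Finset.ne_of_mem_erase hx)]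
    rw [h8, Nat.cast_add]
    push_cast at hq ⊢
    linarith
  refine ⟨fun k => if k = s then (-1 - q).toNat else c k - 1 - m k, ?_⟩
  rw [← Finset.add_sum_erase _ _ hs]
  simp only [if_true]
  have h8 : ((∑ k ∈ C.erase s, (if k = s then (-1 - q).toNat else c k - 1 - m k) * a k : ℕ) : ℤ) =
      ∑ k ∈ C.erase s, (((c k : ℤ) - 1) * a k - m k * a k) := by
    push_cast
    refine Finset.sum_congr rfl fun x hx => ?_
    have hxs := Finset.ne_of_mem_erase hx
    have hxC := Finset.mem_of_mem_erase hx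
    have h9 := hlt x hxC hxs
    rw [if_neg hxs, Nat.cast_sub (by omega), Nat.cast_sub (by omega)]
    push_cast
    ring
  rw [Nat.cast_add, h8, Nat.cast_mul, Int.toNat_of_nonneg (by omega),
    ← Finset.add_sum_erase _ _ hs, Finset.sum_sub_distrib]
  push_cast at hq ⊢
  linear_combination hq

/-- A number which is small with respect to all weights has a combination which uses at most one
weight only. -/
theorem single {τ : ℤ} (hτ : ∀ l ∈ C, τ ≤ (a l : ℤ) + c l - 3) {m : ι → ℕ}
    (hm : ((∑ k ∈ C, m k * a k : ℕ) : ℤ) ≤ τ) : ∃ l ∈ C, ∀ k ∈ C, k ≠ l → m k = 0 := by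
  by_cases h0 : ∀ k ∈ C, m k = 0
  · obtain ⟨l, hl⟩ := X.hC.1.1
    exact ⟨l, hl, fun k hk _ => h0 k hk⟩
  · push Not at h0
    obtain ⟨p, hp, hmp⟩ := h0
    refine ⟨p, hp, fun q hq hqp => ?_⟩
    by_contra hmq
    have h1 : m p * a p + m q * a q ≤ ∑ k ∈ C, m k * a k := by
      rw [← Finset.sum_pair (f := fun k => m k * a k) (Ne.symm hqp)]
      refine Finset.sum_le_sum_of_subset ?_
      intro x hx
      rw [Finset.mem_insert, Finset.mem_singleton] at hx
      rcases hx with rfl | rfl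
      · exact hp
      · exact hq
    have h2 : 1 * a p ≤ m p * a p := Nat.mul_le_mul_right _ (Nat.one_le_iff_ne_zero.2 hmp)
    have h3 : 1 * a q ≤ m q * a q := Nat.mul_le_mul_right _ (Nat.one_le_iff_ne_zero.2 hmq)
    have h4 := hτ p hp
    have h5 := X.c_lt hq hp (Ne.symm hqp)
    omega

omit [DecidableEq ι] X in
theorem single_sum {l : ι} (hl : l ∈ C) {m : ι → ℕ} (h : ∀ k ∈ C, k ≠ l → m k = 0) :
    ∑ k ∈ C, m k * a k = m l * a l := by
  refine Finset.sum_eq_single_of_mem l hl fun k hk hkl => ?_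
  rw [h k hk hkl, zero_mul]

theorem lt_c {τ : ℤ} (hτ : ∀ l ∈ C, τ ≤ (a l : ℤ) + c l - 3) {l : ι} (hl : l ∈ C) {h : ℕ}
    (hh : ((h * a l : ℕ) : ℤ) ≤ τ) : h < c l := by
  by_contra hcon
  push Not at hcon
  have h1 : c l * a l ≤ h * a l := Nat.mul_le_mul_right _ hcon
  have h2 := hτ l hl
  have h3 := X.two_le hl
  have h4 := X.ha l hl
  have h5 : ((c l * a l : ℕ) : ℤ) ≤ a l + c l - 3 := by
    have h6 : ((c l * a l : ℕ) : ℤ) ≤ ((h * a l : ℕ) : ℤ) := by exact_mod_cast h1
    linarith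
  push_cast at h5
  have h6 : (2 : ℤ) ≤ c l := by exact_mod_cast h3
  have h7 : (2 : ℤ) ≤ a l := by exact_mod_cast h4
  nlinarith

/-- The combination is unique. -/
theorem uniq {τ : ℤ} (hτ : ∀ l ∈ C, τ ≤ (a l : ℤ) + c l - 3) {m m' : ι → ℕ}
    (hm : ((∑ k ∈ C, m k * a k : ℕ) : ℤ) ≤ τ) (hmm : ∑ k ∈ C, m k * a k = ∑ k ∈ C, m' k * a k) :
    ∀ k ∈ C, m k = m' k := by
  obtain ⟨l, hl, h1⟩ := X.single hτ hm
  obtain ⟨l', hl', h2⟩ := X.single hτ (hmm ▸ hm)
  have e1 := single_sum (a := a) hl h1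
  have e2 := single_sum (a := a) hl' h2
  rw [e1] at hm
  have h3 := X.lt_c hτ hl hm
  rw [e1, e2] at hmm
  by_cases hll : l = l'
  · subst hll
    intro k hk
    by_cases hkl : k = l
    · subst hkl
      exact Nat.eq_of_mul_eq_mul_right (X.pos hk) hmm
    · rw [h1 k hk hkl, h2 k hk hkl]
  · have h4 : m l = 0 := by
      by_contra h0
      exact X.two_ne hl hl' hl' (Ne.symm hll) (Ne.symm hll) (y := m' l') (t := 0)
        (Nat.pos_of_ne_zero h0) h3 (by rw [hmm]; ring)
    have h5 : m' l' = 0 := by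
      rw [h4, zero_mul] at hmm
      rcases Nat.mul_eq_zero.1 hmm.symm with h | h
      · exact h
      · have := X.pos hl'
        omega
    intro k hk
    have e3 : m k = 0 := by
      by_cases hkl : k = l
      · rw [hkl]; exact h4
      · exact h1 k hk hkl
    have e4 : m' k = 0 := by
      by_cases hkl : k = l'
      · rw [hkl]; exact h5
      · exact h2 k hk hkl
    rw [e3, e4]

/-- step (2): the difference of the two degrees -/
theorem step2 {e : ℕ} (he : ∑ i ∈ C, (c i - 1) * (a i - 1) < e) {i j : ι} (hi : i ∈ C)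
    (hj : j ∈ C) (hij : i ≠ j) (hbi : ∀ m : ι → ℕ, ∑ k ∈ C, m k * a k + c i * a i ≠ e)
    (hbj : ∀ m : ι → ℕ, ∑ k ∈ C, m k * a k + c j * a j ≠ e) (hle : c i * a i ≤ c j * a j) :
    ∃ (τ : ℤ) (l : ι) (h g : ℕ), τ = ∑ k ∈ C, ((c k : ℤ) - 1) * a k - e ∧
      (∀ l ∈ C, τ ≤ (a l : ℤ) + c l - 3) ∧ l ∈ C ∧ τ = h * a l ∧ h < c l ∧ 1 ≤ g ∧
      c j * a j = c i * a i + g * a l ∧ l ≠ i ∧ l ≠ j := by
  classical
  obtain ⟨τ, hτe⟩ : ∃ τ : ℤ, τ = ∑ k ∈ C, ((c k : ℤ) - 1) * a k - e := ⟨_, rfl⟩
  have hEi : ∀ m : ι → ℕ, ((∑ k ∈ C, m k * a k : ℕ) : ℤ) ≠ (e : ℤ) - c i * a i := by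
    intro m hm
    refine hbi m ?_
    have : ((∑ k ∈ C, m k * a k + c i * a i : ℕ) : ℤ) = e := by
      rw [Nat.cast_add, hm]
      push_cast
      ring
    exact_mod_cast this
  have hEj : ∀ m : ι → ℕ, ((∑ k ∈ C, m k * a k : ℕ) : ℤ) ≠ (e : ℤ) - c j * a j := by
    intro m hm
    refine hbj m ?_
    have : ((∑ k ∈ C, m k * a k + c j * a j : ℕ) : ℤ) = e := by
      rw [Nat.cast_add, hm]
      push_cast
      ring
    exact_mod_cast this
  obtain ⟨m1, hm1⟩ := X.dual hEi hi
  obtain ⟨m2, hm2⟩ := X.dual hEi hj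
  obtain ⟨m3, hm3⟩ := X.dual hEj hi
  have hm1' : ((∑ k ∈ C, m1 k * a k : ℕ) : ℤ) = τ := by rw [hm1, hτe]; ring
  have hm2' : ((∑ k ∈ C, m2 k * a k : ℕ) : ℤ) = τ + c i * a i - c j * a j := by
    rw [hm2, hτe]; ring
  have hm3' : ((∑ k ∈ C, m3 k * a k : ℕ) : ℤ) = τ + c j * a j - c i * a i := by
    rw [hm3, hτe]; ring
  have hτ : ∀ l ∈ C, τ ≤ (a l : ℤ) + c l - 3 := by
    intro l hl
    have h1 : ((∑ i ∈ C, (c i - 1) * (a i - 1) : ℕ) : ℤ) =
        ∑ i ∈ C, ((c i : ℤ) - 1) * a i - ∑ i ∈ C, ((c i : ℤ) - 1) := by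
      rw [← Finset.sum_sub_distrib]
      push_cast
      refine Finset.sum_congr rfl fun x hx => ?_
      have h2 := X.two_le hx
      have h3 := X.ha x hx
      rw [Nat.cast_sub (by omega), Nat.cast_sub (by omega)]
      push_cast
      ring
    have h2 : ((∑ i ∈ C, (c i - 1) * (a i - 1) : ℕ) : ℤ) < e := by exact_mod_cast he
    have h3 : ((1 + ∑ m ∈ C.erase l, (c m - 1) : ℕ) : ℤ) ≤ a l := by exact_mod_cast X.F1 hl
    have h4 : ((∑ m ∈ C.erase l, (c m - 1) : ℕ) : ℤ) = ∑ m ∈ C.erase l, ((c m : ℤ) - 1) := by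
      push_cast
      refine Finset.sum_congr rfl fun x hx => ?_
      have h2 := X.two_le (Finset.mem_of_mem_erase hx)
      rw [Nat.cast_sub (by omega)]
      push_cast
      ring
    rw [Nat.cast_add, h4] at h3
    rw [h1, ← Finset.add_sum_erase C (fun m => (c m : ℤ) - 1) hl] at h2
    push_cast at h3
    rw [hτe]
    linarith
  -- the two degrees are different
  have hlt : c i * a i < c j * a j := by
    rcases Nat.lt_or_ge (c i * a i) (c j * a j) with h | h
    · exact h
    · exfalso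
      have h1 : c i * a i = c j * a j := le_antisymm hle h
      have h2 : a i ∣ c j := (X.hcop i hi j hj hij).dvd_of_dvd_mul_right
        (Dvd.intro_left _ h1)
      have h3 := Nat.le_of_dvd (by have := X.two_le hj; omega) h2
      have h4 := X.c_lt hi hj (Ne.symm hij)
      omega
  have hltz : ((c i * a i : ℕ) : ℤ) < ((c j * a j : ℕ) : ℤ) := by exact_mod_cast hlt
  push_cast at hltz
  obtain ⟨l, hl, hml⟩ := X.single hτ (le_of_eq hm1')
  rw [single_sum hl hml] at hm1'
  have hlc := X.lt_c hτ hl (le_of_eq hm1')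
  obtain ⟨k, hk, hmk⟩ := X.single hτ (m := m2) (by rw [hm2']; linarith)
  rw [single_sum hk hmk] at hm2'
  -- the smaller number is a multiple of the same weight
  obtain ⟨n, hn⟩ : ∃ n : ℕ, ((n * a l : ℕ) : ℤ) = τ + c i * a i - c j * a j := by
    by_cases hkl : k = l
    · exact ⟨m2 k, by rw [← hm2', hkl]⟩
    · by_cases h0 : m2 k = 0
      · exact ⟨0, by rw [← hm2', h0, zero_mul, zero_mul]⟩
      · exfalso
        -- `2 h a_l = m2 k a_k + sum m3`
        have h1 : 2 * m1 l * a l = m2 k * a k + ∑ x ∈ C, m3 x * a x := by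
          have : ((2 * m1 l * a l : ℕ) : ℤ) = ((m2 k * a k + ∑ x ∈ C, m3 x * a x : ℕ) : ℤ) := by
            rw [Nat.cast_add, hm2', hm3']
            push_cast at hm1' ⊢
            linarith
          exact_mod_cast this
        rw [← Finset.add_sum_erase _ _ hl] at h1
        have h2 : 0 < m2 k * a k := Nat.mul_pos (Nat.pos_of_ne_zero h0) (X.pos hk)
        have h3 : m3 l * a l < 2 * m1 l * a l := by omega
        have h4 : m3 l < 2 * m1 l := Nat.lt_of_mul_lt_mul_right h3
        have h5 : c l ≤ 2 * m1 l - m3 l := by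
          by_contra hcon
          push Not at hcon
          refine X.hH l hl (2 * m1 l - m3 l) (by omega) hcon
            (fun x => m3 x + if x = k then m2 k else 0) ?_
          simp only [add_mul, Finset.sum_add_distrib, ite_mul, zero_mul, Finset.sum_ite_eq']
          rw [if_pos (Finset.mem_erase.2 ⟨hkl, hk⟩), Nat.sub_mul]
          omega
        have h6 := hτ l hl
        have h7 : (c l : ℤ) ≤ 2 * m1 l := by omega
        have h8 : (2 : ℤ) ≤ a l := by exact_mod_cast X.ha l hl
        have h9 : (1 : ℤ) ≤ m1 l := by omega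
        push_cast at hm1'
        have h10 : 0 ≤ ((m1 l : ℤ) - 1) * ((a l : ℤ) - 2) :=
          mul_nonneg (by linarith) (by linarith)
        have h11 : ((m1 l : ℤ) - 1) * ((a l : ℤ) - 2) =
          (m1 l : ℤ) * a l - 2 * m1 l - a l + 2 := by ring
        rw [h11, hm1'] at h10
        linarith
  have hnh : n < m1 l := by
    have h1 : ((n * a l : ℕ) : ℤ) < ((m1 l * a l : ℕ) : ℤ) := by
      rw [hn, hm1']
      linarith
    exact Nat.lt_of_mul_lt_mul_right (by exact_mod_cast h1)
  have hdeg : c j * a j = c i * a i + (m1 l - n) * a l := by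
    have h1 : ((c j * a j + n * a l : ℕ) : ℤ) = ((c i * a i + m1 l * a l : ℕ) : ℤ) := by
      rw [Nat.cast_add, Nat.cast_add, hn, hm1']
      push_cast
      ring
    have h2 : c j * a j + n * a l = c i * a i + m1 l * a l := by exact_mod_cast h1
    rw [Nat.sub_mul]
    have h3 : n * a l ≤ m1 l * a l := Nat.mul_le_mul_right _ hnh.le
    omega
  refine ⟨τ, l, m1 l, m1 l - n, hτe, hτ, hl, by rw [← hm1']; push_cast; ring, hlc, by omega, hdeg,
    ?_, ?_⟩
  · rintro rfl
    have h1 : a l ∣ c j * a j := by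
      rw [hdeg, ← add_mul]
      exact Dvd.intro_left _ rfl
    have h2 : a l ∣ c j := (X.hcop l hl j hj hij).dvd_of_dvd_mul_right h1
    have h3 := Nat.le_of_dvd (by have := X.two_le hj; omega) h2
    have h4 := X.c_lt hi hj (Ne.symm hij)
    omega
  · rintro rfl
    have h1 : c i * a i = (c l - (m1 l - n)) * a l := by
      rw [Nat.sub_mul]
      omega
    have h2 : a l ∣ c i := (X.hcop l hl i hi hij.symm).dvd_of_dvd_mul_right
      (by rw [h1]; exact Dvd.intro_left _ rfl)
    have h3 := Nat.le_of_dvd (by have := X.two_le hi; omega) h2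
    have h4 := X.c_lt hl hi hij
    omega

/-- step (5): an invariant vector is positive -/
theorem pos_of_inv {R : ι → ι → ℕ} (hR : ∀ m ∈ C, Pool.Agent.R920.WC.Rel a c C m (R m)) {p : ι → ℤ}
    {i : ι} (hi : i ∈ C) (hpi : 0 < p i) (hp : ∀ k ∈ C, p k * c k = ∑ s ∈ C, p s * R s k) :
    ∀ k ∈ C, 0 < p k := by
  classical
  obtain ⟨V, hV⟩ : ∃ V : Finset ι, V = C.filter fun k => 0 < p k := ⟨_, rfl⟩
  obtain ⟨U, hU⟩ : ∃ U : Finset ι, U = C.filter fun k => ¬ 0 < p k := ⟨_, rfl⟩
  have hVC : V ⊆ C := by rw [hV]; exact Finset.filter_subset _ _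
  have hUC : U ⊆ C := by rw [hU]; exact Finset.filter_subset _ _
  have hsplit : ∀ f : ι → ℤ, ∑ k ∈ C, f k = ∑ k ∈ V, f k + ∑ k ∈ U, f k := fun f => by
    rw [hV, hU]
    exact (Finset.sum_filter_add_sum_filter_not C (fun k => 0 < p k) f).symm
  by_cases hVeq : V = C
  · intro k hk
    rw [← hVeq, hV] at hk
    exact (Finset.mem_filter.1 hk).2
  · exfalso
    obtain ⟨m, hm, k, hk, hkV, hRmk⟩ := X.hC.not_closed hR V hVC
      ⟨i, by rw [hV]; exact Finset.mem_filter.2 ⟨hi, hpi⟩⟩ hVeq
    have hkU : k ∈ U := by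
      rw [hU]
      refine Finset.mem_filter.2 ⟨hk, fun h => hkV ?_⟩
      rw [hV]
      exact Finset.mem_filter.2 ⟨hk, h⟩
    have h1 : ∑ k ∈ U, p k * c k * a k = ∑ k ∈ U, ∑ s ∈ C, p s * R s k * a k := by
      refine Finset.sum_congr rfl fun k hk => ?_
      rw [hp k (hUC hk), Finset.sum_mul]
    have h2 : ∑ s ∈ U, p s * c s * a s = ∑ s ∈ U, ∑ k ∈ C, p s * R s k * a k := by
      refine Finset.sum_congr rfl fun s hs => ?_
      have h3 := (hR s (hUC hs)).1
      have h4 : ((∑ k ∈ C, R s k * a k : ℕ) : ℤ) = ((c s * a s : ℕ) : ℤ) := by rw [h3]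
      push_cast at h4
      rw [mul_assoc, ← h4, Finset.mul_sum]
      exact Finset.sum_congr rfl fun k _ => by ring
    rw [h1, Finset.sum_comm, hsplit] at h2
    have h3 : ∑ s ∈ U, ∑ k ∈ C, p s * R s k * a k =
        ∑ s ∈ U, ∑ k ∈ V, p s * R s k * a k + ∑ s ∈ U, ∑ k ∈ U, p s * R s k * a k := by
      rw [← Finset.sum_add_distrib]
      exact Finset.sum_congr rfl fun s _ => hsplit _
    rw [h3] at h2
    have h4 : ∑ s ∈ U, ∑ k ∈ V, p s * R s k * a k ≤ 0 := by
      refine Finset.sum_nonpos fun s hs => Finset.sum_nonpos fun k _ => ?_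
      rw [hU] at hs
      have h5 := (Finset.mem_filter.1 hs).2
      push Not at h5
      have h6 : (0 : ℤ) ≤ (R s k : ℤ) * a k := by positivity
      rw [mul_assoc]
      exact mul_nonpos_of_nonpos_of_nonneg h5 h6
    have h5 : 0 < ∑ s ∈ V, ∑ k ∈ U, p s * R s k * a k := by
      have h6 : ∀ s ∈ V, ∀ k ∈ U, 0 ≤ p s * R s k * a k := by
        intro s hs k _
        rw [hV] at hs
        have h7 := (Finset.mem_filter.1 hs).2
        positivity
      refine Finset.sum_pos' (fun s hs => Finset.sum_nonneg fun k hk => h6 s hs k hk)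
        ⟨m, hm, Finset.sum_pos' (fun k hk => h6 m hm k hk) ⟨k, hkU, ?_⟩⟩
      rw [hV] at hm
      have h7 := (Finset.mem_filter.1 hm).2
      have h8 : (0 : ℤ) < R m k := by exact_mod_cast Nat.pos_of_ne_zero hRmk
      have h9 : (0 : ℤ) < a k := by exact_mod_cast X.pos hk
      positivity
    linarith

theorem main {e : ℕ} (he : ∑ i ∈ C, (c i - 1) * (a i - 1) < e) {i j : ι} (hi : i ∈ C)
    (hj : j ∈ C) (hij : i ≠ j) (hbi : ∀ m : ι → ℕ, ∑ k ∈ C, m k * a k + c i * a i ≠ e)
    (hbj : ∀ m : ι → ℕ, ∑ k ∈ C, m k * a k + c j * a j ≠ e) (hle : c i * a i ≤ c j * a j) :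
    False := by
  classical
  obtain ⟨τ, l, h, g, hτe, hτ, hl, hτh, hhc, hg, hdeg, hli, hlj⟩ :=
    X.step2 he hi hj hij hbi hbj hle
  choose! M hM using X.hC.1.2
  have hMi := hM i hi
  have hMii : M i i = 0 := X.rel_self hi hMi
  -- the relation `M i + g * l` of `j`
  have hN : Pool.Agent.R920.WC.Rel a c C j (fun k => M i k + if k = l then g else 0) := by
    refine ⟨?_, l, hl, hlj, ?_⟩
    · simp only [add_mul, Finset.sum_add_distrib, ite_mul, zero_mul, Finset.sum_ite_eq']
      rw [if_pos hl, hMi.1, hdeg]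
    · simp only [if_true]
      omega
  -- the relations
  obtain ⟨R, hR⟩ : ∃ R : ι → ι → ℕ, R = fun m => if m = j then
    (fun k => (if k = i then c i else 0) + (if k = l then g else 0)) else M m := ⟨_, rfl⟩
  have hRj : R j = fun k => (if k = i then c i else 0) + (if k = l then g else 0) := by
    rw [hR]
    simp
  have hRm : ∀ m, m ≠ j → R m = M m := by
    intro m hm
    rw [hR]
    simp [hm]
  have hRel : ∀ m ∈ C, Pool.Agent.R920.WC.Rel a c C m (R m) := by
    intro m hm
    by_cases hmj : m = j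
    · subst hmj
      rw [hRj]
      refine ⟨?_, i, hi, hij, ?_⟩
      · simp only [add_mul, Finset.sum_add_distrib, ite_mul, zero_mul, Finset.sum_ite_eq']
        rw [if_pos hl, if_pos hi, hdeg]
      · simp only [if_true]
        have := X.two_le hi
        omega
    · rw [hRm m hmj]
      exact hM m hm
  -- the start vector
  obtain ⟨x0, hx0⟩ : ∃ x0 : ι → ℕ, x0 = fun k => if k = i then c i else
    (c k - 1 - (if k = l then h else 0)) + M i k := ⟨_, rfl⟩
  obtain ⟨m, hm, ⟨y, hyi, hy⟩, hlt⟩ := exists_reducedP (fun i hi => X.pos hi)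
    (fun m hm => (hRel m hm).1) (X.hC.not_closed hRel) hi
    (fun m => ∃ y : ι → ℤ, y i = 0 ∧ ∀ k ∈ C, (m k : ℤ) =
      x0 k - ∑ s ∈ C, y s * ((if s = k then (c s : ℤ) else 0) - R s k)) (by
      rintro m s hs hsi hcs ⟨y, hyi, hy⟩
      refine ⟨fun x => y x + if x = s then 1 else 0, by simp [hyi, hsi.symm], ?_⟩
      intro k hk
      have h1 : ∑ x ∈ C, (y x + if x = s then 1 else 0) *
          ((if x = k then (c x : ℤ) else 0) - R x k) =
          ∑ x ∈ C, y x * ((if x = k then (c x : ℤ) else 0) - R x k) +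
            ((if s = k then (c s : ℤ) else 0) - R s k) := by
        simp only [add_mul, Finset.sum_add_distrib, ite_mul, zero_mul, one_mul,
          Finset.sum_ite_eq']
        rw [if_pos hs]
      rw [h1, ← sub_sub, ← hy k hk]
      by_cases hks : k = s
      · subst hks
        simp only [if_true]
        rw [Nat.cast_add, Nat.cast_sub hcs]
        ring
      · simp only [if_neg hks, if_neg (Ne.symm hks)]
        rw [Nat.cast_add]
        ring) x0 ⟨fun _ => 0, rfl, fun k _ => by simp⟩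
  -- the degree of the start vector
  have hMi1 : ((∑ k ∈ C.erase i, M i k * a k : ℕ) : ℤ) = c i * a i := by
    have h1 := hMi.1
    rw [← Finset.add_sum_erase _ _ hi, hMii, zero_mul, zero_add] at h1
    rw [h1]
    push_cast
    ring
  obtain ⟨S, hS⟩ : ∃ S : ℤ, S = ∑ k ∈ C.erase i, ((c k : ℤ) - 1) * a k := ⟨_, rfl⟩
  have hST : τ = ((c i : ℤ) - 1) * a i + S - e := by
    rw [hτe, hS, Finset.add_sum_erase C (fun k => ((c k : ℤ) - 1) * a k) hi]
  have hdx : ((∑ k ∈ C, x0 k * a k : ℕ) : ℤ) = e + (c i + 1) * a i := by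
    rw [← Finset.add_sum_erase _ _ hi]
    have h1 : ((∑ k ∈ C.erase i, x0 k * a k : ℕ) : ℤ) = S - h * a l +
        ((∑ k ∈ C.erase i, M i k * a k : ℕ) : ℤ) := by
      have h2 : (h : ℤ) * a l = ∑ k ∈ C.erase i, (if k = l then (h : ℤ) else 0) * a k := by
        simp only [ite_mul, zero_mul, Finset.sum_ite_eq']
        rw [if_pos (Finset.mem_erase.2 ⟨hli, hl⟩)]
      rw [hS, h2]
      push_cast
      rw [← Finset.sum_sub_distrib, ← Finset.sum_add_distrib]
      refine Finset.sum_congr rfl fun k hk => ?_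
      have hki := Finset.ne_of_mem_erase hk
      have h3 := X.two_le (Finset.mem_of_mem_erase hk)
      rw [hx0]
      simp only [if_neg hki]
      by_cases hkl : k = l
      · subst hkl
        simp only [if_true]
        rw [Nat.cast_add, Nat.cast_sub (by omega), Nat.cast_sub (by omega)]
        push_cast
        ring
      · simp only [if_neg hkl]
        rw [Nat.cast_add, Nat.sub_zero, Nat.cast_sub (by omega)]
        push_cast
        ring
    have h2 : x0 i = c i := by rw [hx0]; simp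
    rw [h2, Nat.cast_add, h1, hMi1]
    push_cast
    linarith [hST, hτh]
  have hmi : m i ≤ 2 * c i := by
    by_contra hcon
    push Not at hcon
    refine hbi (fun k => if k = i then m i - (2 * c i + 1) else m k) ?_
    rw [← Finset.add_sum_erase _ _ hi]
    have h1 : ∑ k ∈ C.erase i, (if k = i then m i - (2 * c i + 1) else m k) * a k =
        ∑ k ∈ C.erase i, m k * a k :=
      Finset.sum_congr rfl fun k hk => by rw [if_neg (Finset.ne_of_mem_erase hk)]
    simp only [if_true]
    rw [h1]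
    have h2 : ((∑ k ∈ C, m k * a k : ℕ) : ℤ) = e + (c i + 1) * a i := by rw [hm, hdx]
    rw [← Finset.add_sum_erase _ _ hi] at h2
    have h3 : (((m i - (2 * c i + 1)) * a i + ∑ k ∈ C.erase i, m k * a k + c i * a i : ℕ) : ℤ) =
        (e : ℤ) := by
      rw [Nat.cast_add, Nat.cast_add, Nat.cast_mul, Nat.cast_sub (by omega)]
      rw [Nat.cast_add] at h2
      push_cast at h2 ⊢
      linarith
    exact_mod_cast h3
  -- the complement
  have hcomp : ∀ k ∈ C, (if k = i then 2 * c i - m i else c k - 1 - m k) =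
      if k = l then h else 0 := by
    refine X.uniq hτ (m := fun k => if k = i then 2 * c i - m i else c k - 1 - m k)
      (m' := fun k => if k = l then h else 0) ?_ ?_ <;>
    have h1 : ((∑ k ∈ C, (if k = i then 2 * c i - m i else c k - 1 - m k) * a k : ℕ) : ℤ) = τ := by
      rw [← Finset.add_sum_erase _ _ hi]
      simp only [if_true]
      have h2 : ((∑ k ∈ C.erase i, (if k = i then 2 * c i - m i else c k - 1 - m k) * a k : ℕ)
          : ℤ) = S - ((∑ k ∈ C.erase i, m k * a k : ℕ) : ℤ) := by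
        rw [hS]
        push_cast
        rw [← Finset.sum_sub_distrib]
        refine Finset.sum_congr rfl fun k hk => ?_
        have hki := Finset.ne_of_mem_erase hk
        have h3 := hlt k (Finset.mem_of_mem_erase hk) hki
        rw [if_neg hki, Nat.cast_sub (by omega), Nat.cast_sub (by omega)]
        push_cast
        ring
      rw [Nat.cast_add, h2, Nat.cast_mul, Nat.cast_sub hmi]
      have h3 : ((∑ k ∈ C, m k * a k : ℕ) : ℤ) = e + (c i + 1) * a i := by rw [hm, hdx]
      rw [← Finset.add_sum_erase _ _ hi, Nat.cast_add] at h3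
      push_cast at h3 ⊢
      linarith
    · exact h1.le
    · have h4 : ((∑ k ∈ C, (if k = i then 2 * c i - m i else c k - 1 - m k) * a k : ℕ) : ℤ) =
          ((∑ k ∈ C, (if k = l then h else 0) * a k : ℕ) : ℤ) := by
        rw [h1]
        simp only [ite_mul, zero_mul, Finset.sum_ite_eq']
        rw [if_pos hl, hτh]
        push_cast
        ring
      exact_mod_cast h4
  -- the invariant vector
  obtain ⟨p, hp⟩ : ∃ p : ι → ℤ, p = fun s => y s + if s = i then 1 else 0 := ⟨_, rfl⟩
  have hpi : p i = 1 := by rw [hp]; simp [hyi]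
  have hinv : ∀ k ∈ C, p k * c k = ∑ s ∈ C, p s * R s k := by
    intro k hk
    have h1 : ∑ s ∈ C, p s * ((if s = k then (c s : ℤ) else 0) - R s k) = 0 := by
      have h2 : ∑ s ∈ C, p s * ((if s = k then (c s : ℤ) else 0) - R s k) =
          ∑ s ∈ C, y s * ((if s = k then (c s : ℤ) else 0) - R s k) +
            ((if i = k then (c i : ℤ) else 0) - R i k) := by
        rw [hp]
        simp only [add_mul, Finset.sum_add_distrib, ite_mul, zero_mul, one_mul,
          Finset.sum_ite_eq']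
        rw [if_pos hi]
      have h3 := hy k hk
      have h4 := hcomp k hk
      rw [h2, hRm i hij]
      by_cases hki : k = i
      · subst hki
        rw [if_pos rfl, if_neg (Ne.symm hli)] at h4
        have h5 : x0 k = c k := by rw [hx0]; simp
        rw [h5] at h3
        rw [if_pos rfl, hMii]
        have h6 : m k = 2 * c k := by omega
        rw [h6] at h3
        push_cast at h3 ⊢
        linarith
      · rw [if_neg hki] at h4
        rw [if_neg (Ne.symm hki)]
        have h5 : x0 k = (c k - 1 - (if k = l then h else 0)) + M i k := by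
          rw [hx0]
          simp [hki]
        have h6 := hlt k hk hki
        have h7 : m k = c k - 1 - (if k = l then h else 0) := by omega
        rw [h5, h7, Nat.cast_add] at h3
        linarith
    simp only [mul_sub, Finset.sum_sub_distrib, mul_ite, mul_zero, Finset.sum_ite_eq'] at h1
    rw [if_pos hk] at h1
    linarith
  have hpos := X.pos_of_inv hRel hi (by rw [hpi]; exact one_pos) hinv
  -- step (6)
  have hz : ∀ s ∈ C, s ≠ j → R s i = 0 := by
    have h1 := hinv i hi
    rw [hpi, one_mul, ← Finset.add_sum_erase _ _ hj] at h1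
    have h2 : (R j i : ℤ) = c i := by
      rw [hRj]
      simp [Ne.symm hli]
    rw [h2] at h1
    have h3 : (c i : ℤ) ≤ p j * c i := by
      have h4 := hpos j hj
      have h5 : (0 : ℤ) ≤ c i := by positivity
      nlinarith
    intro s hs hsj
    by_contra hne
    have h4 : p s * R s i ≤ ∑ x ∈ C.erase j, p x * R x i := by
      refine Finset.single_le_sum (f := fun x => p x * (R x i : ℤ)) (fun x hx => ?_)
        (Finset.mem_erase.2 ⟨hsj, hs⟩)
      have := hpos x (Finset.mem_of_mem_erase hx)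
      positivity
    have h5 : 0 < p s * R s i := by
      have h6 := hpos s hs
      have h7 : (0 : ℤ) < R s i := by exact_mod_cast Nat.pos_of_ne_zero hne
      positivity
    linarith
  obtain ⟨R', hR'⟩ : ∃ R' : ι → ι → ℕ, R' = fun m => if m = j then
    (fun k => M i k + if k = l then g else 0) else M m := ⟨_, rfl⟩
  have hRel' : ∀ m ∈ C, Pool.Agent.R920.WC.Rel a c C m (R' m) := by
    intro m hm
    by_cases hmj : m = j
    · subst hmj
      rw [hR']
      simp only [if_true]
      exact hN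
    · rw [hR']
      simp only [if_neg hmj]
      exact hM m hm
  obtain ⟨s, hs, k, hk, hk', hsk⟩ := X.hC.not_closed hRel' (C.erase i) (Finset.erase_subset _ _)
    ⟨j, Finset.mem_erase.2 ⟨hij.symm, hj⟩⟩
    (fun h => Finset.notMem_erase i C (by rw [h]; exact hi))
  have hki : k = i := by
    by_contra hne
    exact hk' (Finset.mem_erase.2 ⟨hne, hk⟩)
  subst hki
  rw [hR'] at hsk
  by_cases hsj : s = j
  · simp only [if_pos hsj, hMii, if_neg (Ne.symm hli)] at hsk
    exact hsk rfl
  · simp only [if_neg hsj] at hsk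
    rw [← hRm s hsj] at hsk
    exact hsk (hz s (Finset.mem_of_mem_erase hs) hsj)

end Ctx

/-- At most one relation cannot be realised. -/
theorem t_OneBad : OneBad := by
  intro N a c C ha hcop hcard hC hH e he i hi j hj hij hbi hbj
  have X : Ctx a c C := ⟨ha, hcop, hcard, hC, hH⟩
  rcases le_total (c i * a i) (c j * a j) with h | h
  · exact X.main he hi hj hij hbi hbj h
  · exact X.main he hj hi hij.symm hbj hbi h

end Pool.Agent.K3h85.WF
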